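import Pool.Agent.helper82.OG.Spec

/-!
# Project og: module MUL: multiplicity of the second level
-/

set_option autoImplicit false

open Finset

noncomputable section

namespace Pool.Agent.OG

open Pool.Agent.EP

theorem MUL_cls (q W : ℕ) (c : ℤ) :
    #((Ioc 0 W).filter fun w : ℕ => (w : ℤ) % (q : ℤ) = c) ≤ W / q + 1 := by
  have h : #((Ioc 0 W).filter fun w : ℕ => (w : ℤ) % (q : ℤ) = c) ≤ #(range (W / q + 1)) := by
    refine Finset.card_le_card_of_injOn (fun w => w / q) ?_ ?_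
    · intro w hw
      have h1 : w ∈ (Ioc 0 W).filter fun w : ℕ => (w : ℤ) % (q : ℤ) = c := hw
      rw [mem_filter, mem_Ioc] at h1
      have h2 : w / q ≤ W / q := Nat.div_le_div_right h1.1.2
      have h3 : w / q ∈ range (W / q + 1) := mem_range.2 (by omega)
      exact h3
    · intro w hw w' hw' hww
      have h1 : w ∈ (Ioc 0 W).filter fun w : ℕ => (w : ℤ) % (q : ℤ) = c := hw
      have h1' : w' ∈ (Ioc 0 W).filter fun w : ℕ => (w : ℤ) % (q : ℤ) = c := hw'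
      rw [mem_filter] at h1 h1'
      have h2 : ((w % q : ℕ) : ℤ) = ((w' % q : ℕ) : ℤ) := by
        rw [Int.natCast_mod, Int.natCast_mod, h1.2, h1'.2]
      have h3 : w % q = w' % q := by exact_mod_cast h2
      have h4 : w / q = w' / q := hww
      rw [← Nat.div_add_mod w q, ← Nat.div_add_mod w' q, h3, h4]
  rwa [card_range] at h

theorem MUL_dvd (hSQ : SQ_stmt) (a : ℕ) (ha : 2 ≤ a) (u v : ℤ) (hu : u % 2 = 1) (hv : v % 2 = 1)
    (h : (2 : ℤ) ^ a ∣ 3 * (u ^ 2 - v ^ 2)) :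
    (2 : ℤ) ^ (a - 1) ∣ u - v ∨ (2 : ℤ) ^ (a - 1) ∣ u + v := by
  have hc : IsCoprime ((2 : ℤ) ^ a) 3 := IsCoprime.pow_left ⟨-1, 1, by norm_num⟩
  have h1 : (2 : ℤ) ^ a ∣ u ^ 2 - v ^ 2 := hc.dvd_of_dvd_mul_left h
  rcases Nat.lt_or_ge a 3 with h3 | h3
  · have h4 : a = 2 := by omega
    left
    rw [h4]
    have h5 : ((2 : ℤ) ^ (2 - 1)) = 2 := by norm_num
    rw [h5]
    omega
  · obtain ⟨b, rfl⟩ : ∃ b, a = b + 3 := ⟨a - 3, by omega⟩
    have h4 : b + 3 - 1 = b + 2 := rfl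
    rw [h4]
    exact (hSQ.2 b u v hu hv).1 h1

theorem MUL_main (hSQ : SQ_stmt) (a K j : ℕ) (ha : 2 ≤ a) (S : Finset ℕ)
    (hS : ∀ r ∈ S, r ≤ K ∧ ∃ w ∈ ws (r * 2 ^ a), r * 2 ^ a - 3 * w ^ 2 = j) :
    #S ≤ 2 * (Nat.sqrt (K * 2 ^ a) / 2 ^ (a - 1) + 1) := by
  obtain ⟨W, hW⟩ : ∃ W, W = Nat.sqrt (K * 2 ^ a) := ⟨_, rfl⟩
  rw [← hW]
  rcases S.eq_empty_or_nonempty with he | ⟨r₀, hr₀⟩
  · rw [he, card_empty]
    exact Nat.zero_le _
  · have key : ∀ r, r ∈ S →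
        ∃ w : ℕ, (w % 2 = 1 ∧ w ≤ W) ∧ r * 2 ^ a = j + 3 * w ^ 2 := by
      intro r hr
      obtain ⟨hrK, w, hw, hj⟩ := hS r hr
      rw [ws, mem_filter] at hw
      refine ⟨w, ⟨hw.2.1, ?_⟩, ?_⟩
      · rw [hW, Nat.le_sqrt']
        have h1 : r * 2 ^ a ≤ K * 2 ^ a := Nat.mul_le_mul_right _ hrK
        have h2 := hw.2.2
        nlinarith [Nat.zero_le (w ^ 2)]
      · have h2 := hw.2.2
        omega
    choose! f hf1 hf2 using key
    obtain ⟨q, hq⟩ : ∃ q : ℕ, q = 2 ^ (a - 1) := ⟨_, rfl⟩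
    have hqz : (q : ℤ) = (2 : ℤ) ^ (a - 1) := by rw [hq]; push_cast; rfl
    rw [← hq]
    have hcard : #S ≤ #(((Ioc 0 W).filter fun w : ℕ => (w : ℤ) % (q : ℤ) = (f r₀ : ℤ) % (q : ℤ)) ∪
        ((Ioc 0 W).filter fun w : ℕ => (w : ℤ) % (q : ℤ) = (-(f r₀ : ℤ)) % (q : ℤ))) := by
      refine Finset.card_le_card_of_injOn f ?_ ?_
      · intro r hr
        have hr' : r ∈ S := hr
        have h1 := hf1 r hr'
        have h2 := hf2 r hr'
        have h3 := hf1 r₀ hr₀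
        have h4 := hf2 r₀ hr₀
        have h5 : f r ∈ Ioc 0 W := mem_Ioc.2 ⟨by omega, h1.2⟩
        have h6 : (2 : ℤ) ^ a ∣ 3 * ((f r : ℤ) ^ 2 - (f r₀ : ℤ) ^ 2) := by
          refine ⟨(r : ℤ) - r₀, ?_⟩
          have h2' : (r : ℤ) * 2 ^ a = j + 3 * (f r : ℤ) ^ 2 := by exact_mod_cast h2
          have h4' : (r₀ : ℤ) * 2 ^ a = j + 3 * (f r₀ : ℤ) ^ 2 := by exact_mod_cast h4
          linear_combination h4' - h2'
        have hu : (f r : ℤ) % 2 = 1 := by
          have := h1.1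
          omega
        have hv : (f r₀ : ℤ) % 2 = 1 := by
          have := h3.1
          omega
        have h7 : f r ∈ (((Ioc 0 W).filter fun w : ℕ =>
            (w : ℤ) % (q : ℤ) = (f r₀ : ℤ) % (q : ℤ)) ∪
            ((Ioc 0 W).filter fun w : ℕ => (w : ℤ) % (q : ℤ) = (-(f r₀ : ℤ)) % (q : ℤ))) := by
          rw [mem_union, mem_filter, mem_filter]
          rcases MUL_dvd hSQ a ha _ _ hu hv h6 with h | h
          · left
            refine ⟨h5, ?_⟩
            rw [← hqz] at h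
            exact Int.emod_eq_emod_iff_emod_sub_eq_zero.2 (Int.emod_eq_zero_of_dvd h)
          · right
            refine ⟨h5, ?_⟩
            rw [← hqz, ← sub_neg_eq_add] at h
            exact Int.emod_eq_emod_iff_emod_sub_eq_zero.2 (Int.emod_eq_zero_of_dvd h)
        exact h7
      · intro r hr r' hr' hrr
        have h1 : r ∈ S := hr
        have h1' : r' ∈ S := hr'
        have h2 := hf2 r h1
        have h2' := hf2 r' h1'
        rw [hrr, ← h2'] at h2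
        exact Nat.eq_of_mul_eq_mul_right (by positivity) h2
    refine hcard.trans ((card_union_le _ _).trans ?_)
    have h8 := MUL_cls q W ((f r₀ : ℤ) % (q : ℤ))
    have h9 := MUL_cls q W ((-(f r₀ : ℤ)) % (q : ℤ))
    omega

theorem MUL (hSQ : SQ_stmt) : MUL_stmt := by
  intro a K j ha
  refine MUL_main hSQ a K j ha _ ?_
  intro r hr
  have h := (@Finset.mem_filter _ _ (fun _ => Classical.propDecidable _) _ _).1 hr
  exact ⟨(mem_Ioc.1 h.1).2, h.2⟩

end Pool.Agent.OG
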